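import Pool.Agent.Helper67.BLT.C3

set_option autoImplicit false
open MeasureTheory FourierTransform
open scoped ENNReal Matrix

namespace Pool.Agent.Results.MP_bb0b0f_an.NonsymmetricBLT

/-- The Hilbert space `L²(ℝ^l)` of complex valued functions, for Lebesgue measure. -/
abbrev L2 (l : ℕ) : Type := Lp ℂ 2 (volume : Measure (EuclideanSpace ℝ (Fin l)))

/-- For `g ∈ L²(ℝ^l)` and `m, n ∈ ℝ^l`, the function `x ↦ g(x - m) e^{2π i n·x}` is in `L²`. -/
theorem memLp_gaborAtom {l : ℕ} (g : L2 l) (m n : EuclideanSpace ℝ (Fin l)) :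
    MemLp (fun x : EuclideanSpace ℝ (Fin l) =>
      g (x - m) * Complex.exp (2 * Real.pi * Complex.I * (inner ℝ n x : ℝ))) 2 volume := by
  refine (memLp_congr_ae ?_).1 (Lp.memLp (Helper67.BLT.mo n (Helper67.BLT.tr m g)))
  filter_upwards [Helper67.BLT.mo_coe n (Helper67.BLT.tr m g), Helper67.BLT.tr_coe m g] with x h1 h2
  rw [h1, h2, mul_comm]
  rfl

/-- The element `x ↦ g(x - m) e^{2π i n·x}` of `L²(ℝ^l)`. -/
noncomputable def gaborAtom {l : ℕ} (g : L2 l) (m n : EuclideanSpace ℝ (Fin l)) : L2 l :=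
  (memLp_gaborAtom g m n).toLp
    (fun x => g (x - m) * Complex.exp (2 * Real.pi * Complex.I * (inner ℝ n x : ℝ)))

/-- `S ⊆ ℝ^l × ℝ^l` is a symplectic lattice: `S = M ℤ^{2l}` for a real matrix `M` with
`Mᵀ J M = J`, where `J = (0, I; -I, 0)`. -/
def IsSymplecticLattice (l : ℕ) (S : Set (EuclideanSpace ℝ (Fin l) × EuclideanSpace ℝ (Fin l))) :
    Prop :=
  ∃ M : Matrix (Fin l ⊕ Fin l) (Fin l ⊕ Fin l) ℝ,
    Mᵀ * Matrix.fromBlocks 0 1 (-1) 0 * M = Matrix.fromBlocks 0 1 (-1) 0 ∧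
    S = {s | ∃ a : Fin l ⊕ Fin l → ℤ,
      Sum.elim (fun i => s.1 i) (fun i => s.2 i) = M *ᵥ (fun j => (a j : ℝ))}

/-- A family is a Riesz basis of a Hilbert space if it is the image of an orthonormal (Hilbert)
basis under a bounded invertible operator. -/
def IsRieszBasis {ι H : Type*} [NormedAddCommGroup H] [InnerProductSpace ℂ H] (h : ι → H) : Prop :=
  ∃ (b : HilbertBasis ι ℂ H) (T : H ≃L[ℂ] H), ∀ i, h i = T (b i)

/-- The Gabor system `G(g, S)`, indexed by the points `(m, n)` of `S`. -/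
noncomputable def gaborSystem {l : ℕ} (g : L2 l)
    (S : Set (EuclideanSpace ℝ (Fin l) × EuclideanSpace ℝ (Fin l))) : S → L2 l :=
  fun s => gaborAtom g s.1.1 s.1.2

/-- The Fourier transform on `L²(ℝ^l)`, with kernel `e^{-2π i x·ξ}`. -/
noncomputable def fourierL2 {l : ℕ} (g : L2 l) : L2 l := 𝓕 g

/-- The moment `∫ |x_k|^p |g(x)|² dx`, an element of `[0, ∞]`. -/
noncomputable def moment {l : ℕ} (k : Fin l) (p : ℝ) (g : L2 l) : ℝ≥0∞ :=
  ∫⁻ x : EuclideanSpace ℝ (Fin l), ENNReal.ofReal (|x k| ^ p * ‖g x‖ ^ 2)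

/-- An element of `L²(ℝ^l)` has compact support: it vanishes a.e. outside a compact set. -/
def CompactlySupported {l : ℕ} (g : L2 l) : Prop :=
  ∃ K : Set (EuclideanSpace ℝ (Fin l)), IsCompact K ∧ ∀ᵐ x, x ∉ K → g x = 0

open Helper67.BLT in
lemma gaborAtom_eq {l : ℕ} (g : L2 l) (m n : EuclideanSpace ℝ (Fin l)) :
    gaborAtom g m n = mo n (tr m g) := by
  apply Lp.ext
  filter_upwards [(memLp_gaborAtom g m n).coeFn_toLp, mo_coe n (tr m g), tr_coe m g] with x h1 h2 h3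
  unfold gaborAtom
  rw [h1, h2, h3, mul_comm]
  rfl

open Helper67.BLT in
lemma compact_bound {l : ℕ} (g : L2 l) (hg : CompactlySupported g) (k : Fin l) :
    ∃ r : ℝ, 0 < r ∧ ∀ᵐ x, (g : EuclideanSpace ℝ (Fin l) → ℂ) x ≠ 0 → |inner ℝ (ek k) x| ≤ r := by
  obtain ⟨K, hK, hg⟩ := hg
  obtain ⟨r, hr⟩ := hK.isBounded.exists_norm_le
  refine ⟨max r 1, by positivity, ?_⟩
  filter_upwards [hg] with x hx hne
  have hxK : x ∈ K := by
    by_contra h
    exact hne (hx h)
  rw [inner_ek]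
  calc |x k| = ‖x k‖ := (Real.norm_eq_abs _).symm
    _ ≤ ‖x‖ := PiLp.norm_apply_le x k
    _ ≤ r := hr x hxK
    _ ≤ max r 1 := le_max_left _ _

open Helper67.BLT in
lemma wt_eq {l : ℕ} (k : Fin l) (p : ℝ) (g : L2 l) : wt (ek k) p g = moment k p g := by
  unfold wt moment
  apply lintegral_congr
  intro x
  rw [inner_ek, ENNReal.ofReal_mul (by positivity), ENNReal.ofReal_pow (norm_nonneg _), ofReal_norm]

open Helper67.BLT in
/-- **Nonsymmetric Balian-Low theorem for symplectic lattices.** -/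
theorem result (l : ℕ) (S : Set (EuclideanSpace ℝ (Fin l) × EuclideanSpace ℝ (Fin l)))
    (hS : IsSymplecticLattice l S) (g : L2 l) (hg : IsRieszBasis (gaborSystem g S)) (k : Fin l) :
    (∀ p q : ℝ, 1 < p → 1 / p + 1 / q = 1 → moment k p g = ⊤ ∨ moment k q (fourierL2 g) = ⊤) ∧
    (CompactlySupported g → moment k 1 (fourierL2 g) = ⊤) ∧
    (CompactlySupported (fourierL2 g) → moment k 1 g = ⊤) := by
  obtain ⟨M, hM, rfl⟩ := hS
  obtain ⟨bb, T, hbT⟩ := hg
  have hMJ : Mᵀ * JJ l * M = JJ l := hM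
  -- injectivity of `M`
  have hinj : ∀ a a' : Fin l ⊕ Fin l → ℤ, lp' M a = lp' M a' → a = a' := by
    intro a a' h
    have hJJ : JJ l * JJ l = -1 := by
      unfold JJ
      rw [Matrix.fromBlocks_multiply]
      simp only [Matrix.zero_mul, Matrix.mul_zero, Matrix.one_mul, Matrix.mul_one, zero_add, add_zero,
        Matrix.mul_neg, Matrix.neg_mul]
      rw [← Matrix.fromBlocks_one, Matrix.fromBlocks_neg]
      simp
    have hleft : (-(JJ l * Mᵀ * JJ l)) * M = 1 := by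
      rw [Matrix.neg_mul, Matrix.mul_assoc, Matrix.mul_assoc, ← Matrix.mul_assoc Mᵀ, hMJ, hJJ, neg_neg]
    have h2 : (fun j => (a j : ℝ)) = (fun j => (a' j : ℝ)) := by
      have h3 := congrArg (fun v => (-(JJ l * Mᵀ * JJ l)) *ᵥ v) h
      simp only [lp', Matrix.mulVec_mulVec, hleft, Matrix.one_mulVec] at h3
      exact h3
    ext j
    have := congrFun h2 j
    exact_mod_cast this
  -- the parametrisation of the lattice
  let ε0 : (Fin l ⊕ Fin l → ℤ) → {s : EuclideanSpace ℝ (Fin l) × EuclideanSpace ℝ (Fin l) | ∃ a : Fin l ⊕ Fin l → ℤ,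
      Sum.elim (fun i => s.1 i) (fun i => s.2 i) = M *ᵥ (fun j => (a j : ℝ))} :=
    fun a => ⟨(fst' (lp' M a), snd' (lp' M a)), a, by
      ext i
      rcases i with i | i <;> rfl⟩
  have hε0 : Function.Bijective ε0 := by
    constructor
    · intro a a' h
      apply hinj
      have h1 : fst' (lp' M a) = fst' (lp' M a') := congrArg (fun s => s.1.1) h
      have h2 : snd' (lp' M a) = snd' (lp' M a') := congrArg (fun s => s.1.2) h
      ext i
      rcases i with i | i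
      · exact congrArg (fun v : EuclideanSpace ℝ (Fin l) => v i) h1
      · exact congrArg (fun v : EuclideanSpace ℝ (Fin l) => v i) h2
    · rintro ⟨⟨s1, s2⟩, a, ha⟩
      refine ⟨a, ?_⟩
      apply Subtype.ext
      apply Prod.ext
      · ext i
        exact (congrFun ha (Sum.inl i)).symm
      · ext i
        exact (congrFun ha (Sum.inr i)).symm
  have hT : ∀ a, T (bb (Equiv.ofBijective ε0 hε0 a)) = mo (snd' (lp' M a)) (tr (fst' (lp' M a)) g) := by
    intro a
    rw [← hbT]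
    exact gaborAtom_eq g _ _
  obtain ⟨h1, h2, h3⟩ := main_blt M hMJ (Equiv.ofBijective ε0 hε0) bb T g hT k
  refine ⟨?_, ?_, ?_⟩
  · intro p q hp hpq
    by_contra hcon
    push Not at hcon
    obtain ⟨hA, hB⟩ := hcon
    rw [← wt_eq] at hA
    rw [← wt_eq] at hB
    exact h1 p q hp hpq (lt_top_iff_ne_top.2 hA) (lt_top_iff_ne_top.2 hB)
  · intro hsupp
    by_contra hcon
    obtain ⟨r, hr, hsr⟩ := compact_bound g hsupp k
    refine h2 r hr hsr ?_
    rw [wt_eq]
    exact lt_top_iff_ne_top.2 hcon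
  · intro hsupp
    by_contra hcon
    obtain ⟨r, hr, hsr⟩ := compact_bound (fourierL2 g) hsupp k
    refine h3 r hr hsr ?_
    rw [wt_eq]
    exact lt_top_iff_ne_top.2 hcon

end Pool.Agent.Results.MP_bb0b0f_an.NonsymmetricBLT
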